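import Pool.Agent.Helper77.UN.Defs
import Pool.Agent.Helper64.UN.SL

/-!
# Module UN-PSUM: the state sum
-/

namespace Pool.Agent.Helper77.UN

open Finset
open Pool.Agent.Helper9.Kashaev (Piece Diagram)
open Pool.Agent.Helper9.FA (Item Cor Ang twists wfP labels)
open Pool.Agent.Helper9.TW (Lab Conn)
open Pool.Agent.Helper28.TX (PV Pot)
open Pool.Agent.Helper77.ST

variable {F : Type*} [Field F]

lemma PSUM_cast {l : ℕ} {x y : ℤ} (h : |y - x| ≤ l) : (stt l x y : ℤ) = l - (y - x) := by
  unfold stt
  rw [abs_le] at h
  rw [Int.toNat_of_nonneg]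
  omega

lemma PSUM_lt (P : Par F) {x y : ℤ} (h : |y - x| ≤ P.l) : stt P.l x y < P.N := by
  have h1 := PSUM_cast h
  rw [abs_le] at h
  unfold Par.N
  omega

lemma PSUM_stw (l : ℕ) (x : ℤ) (s2 : List ℤ) : ∀ s1 : List ℤ,
    stw l (s1 ++ x :: s2) = stw l (s1 ++ [x]) ++ stw l (x :: s2) := by
  intro s1
  induction s1 with
  | nil => simp [stw]
  | cons a s1 ih =>
    rcases s1 with _ | ⟨b, s1⟩
    · simp [stw]
    · simp only [List.cons_append] at ih ⊢
      simp only [stw, List.cons_append]
      rw [ih]

lemma PSUM_len (l : ℕ) (x : ℤ) : ∀ s1 : List ℤ, (stw l (s1 ++ [x])).length = s1.length := by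
  intro s1
  induction s1 with
  | nil => simp [stw]
  | cons a s1 ih =>
    rcases s1 with _ | ⟨b, s1⟩
    · simp [stw]
    · simp only [List.cons_append] at ih ⊢
      simp only [stw, List.length_cons]
      rw [ih]
      simp

lemma PSUM_InR (l : ℕ) (x : ℤ) (s2 : List ℤ) : ∀ s1 : List ℤ,
    InR l (s1 ++ x :: s2) ↔ InR l (s1 ++ [x]) ∧ InR l (x :: s2) := by
  intro s1
  induction s1 with
  | nil => simp [InR]
  | cons a s1 ih =>
    rcases s1 with _ | ⟨b, s1⟩
    · simp [InR]
    · simp only [List.cons_append] at ih ⊢
      simp only [InR]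
      rw [ih]
      tauto

lemma PSUM_split {k : ℕ} {s : List ℤ} (h : k < s.length) :
    ∃ s1 x s2, s = s1 ++ x :: s2 ∧ s1.length = k := by
  refine ⟨s.take k, s[k], s.drop (k + 1), ?_, by simp; omega⟩
  simp

/-- the value of a cup -/
lemma PSUM_wcup (P : Par F) (a : List ℤ) (b : Bool) (x m : ℤ)
    (y : List (PV ℤ) × List (Bool × ℤ × ℤ)) :
    wt2 P a (y.1, (b, x, m) :: y.2) = we P (b, x, m) * wt2 P a y := by
  unfold wt2
  simp only [List.map_cons, List.prod_cons]
  ring

lemma PSUM_wbox (P : Par F) (z : ℤ) (a : List ℤ) (q : PV ℤ)
    (y : List (PV ℤ) × List (Bool × ℤ × ℤ)) :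
    wt2 P (z :: a) (q :: y.1, y.2) = wv P z q * wt2 P a y := by
  unfold wt2
  simp only [List.zipWith_cons_cons, List.prod_cons]
  ring

theorem psum (P : Par F) {Q : List (Item Unit)} {n : ℕ} (hQ : wfP n Q 1) {a : List ℤ}
    (ha : a.length = (labels Q).length) {s : List ℤ} (hs : s.length = n + 1) (hr : InR P.l s) :
    RT P (tw Q a) (ket (stw P.l s)) [0] = ∑ y ∈ pots P.l Q s, wt2 P a y := by
  classical
  induction Q generalizing n a s with
  | nil =>
    simp only [wfP] at hQ
    subst hQ
    rcases s with _ | ⟨x, _ | ⟨y, _ | ⟨z, s⟩⟩⟩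
    · simp at hs
    · simp at hs
    · have hxy : |y - x| ≤ P.l := hr.1
      have h1 := PSUM_cast hxy
      rw [abs_le] at hxy
      simp only [tw, RT, stw, pots, ket]
      by_cases h : y = x + P.l
      · have h0 : stt P.l x y = 0 := by omega
        rw [if_pos h, h0]
        simp [wt2]
      · have h0 : ([0] : List ℕ) ≠ [stt P.l x y] := by
          intro h2
          simp only [List.cons.injEq, and_true] at h2
          omega
        rw [if_neg h, if_neg h0]
        simp
    · simp at hs
  | cons it Q ih =>
    cases it with
    | cup k =>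
      simp only [wfP] at hQ
      obtain ⟨s1, x, r, rfl, hk⟩ := PSUM_split (k := k) (s := s) (by omega)
      subst hk
      have hdrop : (s1 ++ x :: r).drop s1.length = x :: r := by simp
      have htake : (s1 ++ x :: r).take s1.length = s1 := by simp
      have hr' := (PSUM_InR P.l x r s1).1 hr
      have hlen := PSUM_len P.l x s1
      rw [PSUM_stw]
      have hX := X_cup P (tw Q a) (stw P.l (s1 ++ [x])) (stw P.l (x :: r)) [0]
      rw [hlen] at hX
      simp only [tw]
      rw [hX]
      simp only [pots]
      rw [hdrop, htake]
      simp only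
      rw [sum_biUnion]
      · have hstep : ∀ m ∈ Icc (x - (P.l : ℤ)) (x + P.l),
            ∑ y ∈ (pots P.l Q (s1 ++ x :: m :: x :: r)).image
              (fun y => (y.1, (true, x, m) :: y.2)), wt2 P a y =
            cupC P (stt P.l x m) * RT P (tw Q a)
              (ket (stw P.l (s1 ++ [x]) ++ stt P.l x m :: (P.N - 1 - stt P.l x m) ::
                stw P.l (x :: r))) [0] := by
          intro m hm
          rw [mem_Icc] at hm
          have hxm : |m - x| ≤ P.l := by rw [abs_le]; omega
          have hmx : |x - m| ≤ P.l := by rw [abs_le]; omega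
          rw [sum_image]
          · simp only [PSUM_wcup]
            rw [← mul_sum, ← ih hQ.2 (by simpa [labels] using ha) (s := s1 ++ x :: m :: x :: r)
              (by simp at hs ⊢; omega)
              ((PSUM_InR P.l x _ s1).2 ⟨hr'.1, hxm, hmx, hr'.2⟩)]
            have e1 : we P (true, x, m) = cupC P (stt P.l x m) := by simp [we]
            have e2 : stt P.l m x = P.N - 1 - stt P.l x m := by
              have h1 := PSUM_cast hxm
              have h2 := PSUM_cast hmx
              have h3 := P.N_eq
              omega
            rw [e1, PSUM_stw, stw, stw, e2]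
          · intro y _ y' _ hyy
            simp only [Prod.mk.injEq, List.cons.injEq, true_and] at hyy
            exact Prod.ext hyy.1 hyy.2
        rw [sum_congr rfl hstep]
        refine sum_bij' (fun i _ => x + P.l - (i : ℤ)) (fun m _ => stt P.l x m) ?_ ?_ ?_ ?_ ?_
        · intro i hi
          rw [mem_range, P.N_eq] at hi
          rw [mem_Icc]; omega
        · intro m hm
          rw [mem_Icc] at hm
          rw [mem_range]
          exact PSUM_lt P (by rw [abs_le]; omega)
        · intro i hi
          rw [mem_range, P.N_eq] at hi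
          have h1 := PSUM_cast (l := P.l) (x := x) (y := x + P.l - i) (by rw [abs_le]; omega)
          omega
        · intro m hm
          rw [mem_Icc] at hm
          have h1 := PSUM_cast (l := P.l) (x := x) (y := m) (by rw [abs_le]; omega)
          omega
        · intro i hi
          rw [mem_range, P.N_eq] at hi
          have h1 := PSUM_cast (l := P.l) (x := x) (y := x + P.l - i) (by rw [abs_le]; omega)
          have h2 : stt P.l x (x + P.l - i) = i := by omega
          rw [h2]
      · intro m _ m' _ hmm
        rw [Function.onFun, Finset.disjoint_left]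
        intro y hy hy'
        rw [mem_image] at hy hy'
        obtain ⟨z, -, rfl⟩ := hy
        obtain ⟨z', -, hz'⟩ := hy'
        simp only [Prod.mk.injEq, List.cons.injEq, true_and] at hz'
        exact hmm hz'.2.1.symm
    | cap k =>
      simp only [wfP] at hQ
      obtain ⟨s1, x, r, rfl, hk⟩ := PSUM_split (k := k) (s := s) (by omega)
      subst hk
      rcases r with _ | ⟨m, _ | ⟨x', r⟩⟩
      · simp at hs; omega
      · simp at hs; omega
      have hdrop : (s1 ++ x :: m :: x' :: r).drop s1.length = x :: m :: x' :: r := by simp
      have htake : (s1 ++ x :: m :: x' :: r).take s1.length = s1 := by simp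
      have hr' := (PSUM_InR P.l x (m :: x' :: r) s1).1 hr
      obtain ⟨hr1, hxm, hmx, hr2⟩ := hr'
      have hlen := PSUM_len P.l x s1
      rw [PSUM_stw]
      have hX := X_cap P (tw Q a) (stw P.l (s1 ++ [x])) (stw P.l (x' :: r)) (PSUM_lt P hxm)
        (PSUM_lt P hmx) [0]
      rw [hlen] at hX
      simp only [tw, stw]
      rw [hX]
      simp only [pots]
      rw [hdrop, htake]
      simp only
      have h1 := PSUM_cast hxm
      have h2 := PSUM_cast hmx
      have h3 := P.N_eq
      by_cases hxx : x = x'
      · subst hxx
        rw [if_pos (by omega), if_pos rfl, sum_image]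
        · simp only [PSUM_wcup]
          rw [← mul_sum, ← ih hQ.2 (by simpa [labels] using ha) (s := s1 ++ x :: r)
            (by simp at hs ⊢; omega) ((PSUM_InR P.l x _ s1).2 ⟨hr1, hr2⟩), PSUM_stw P.l x r s1]
          have e1 : we P (false, x, m) = capC P (stt P.l x m) := by simp [we]
          rw [e1]
        · intro y _ y' _ hyy
          simp only [Prod.mk.injEq, List.cons.injEq, true_and] at hyy
          exact Prod.ext hyy.1 hyy.2
      · rw [if_neg (by omega), if_neg hxx, sum_empty]
    | box k b =>
      simp only [wfP] at hQ
      obtain ⟨s1, L, r, rfl, hk⟩ := PSUM_split (k := k) (s := s) (by omega)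
      subst hk
      rcases r with _ | ⟨B, _ | ⟨R, r⟩⟩
      · simp at hs; omega
      · simp at hs; omega
      rcases a with _ | ⟨z, a⟩
      · simp [labels] at ha
      have hdrop : (s1 ++ L :: B :: R :: r).drop s1.length = L :: B :: R :: r := by simp
      have htake : (s1 ++ L :: B :: R :: r).take s1.length = s1 := by simp
      have hr' := (PSUM_InR P.l L (B :: R :: r) s1).1 hr
      obtain ⟨hr1, hLB, hBR, hr2⟩ := hr'
      have hlen := PSUM_len P.l L s1
      rw [PSUM_stw]
      have hX := X_tw P (tw Q a) (stw P.l (s1 ++ [L])) (stw P.l (R :: r)) (PSUM_lt P hLB)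
        (PSUM_lt P hBR) z [0]
      rw [hlen] at hX
      simp only [tw, stw]
      rw [hX]
      simp only [pots]
      rw [hdrop, htake]
      simp only
      have h1 := PSUM_cast hLB
      have h2 := PSUM_cast hBR
      have h3 := P.N_eq
      have hLB' := abs_le.1 hLB
      have hBR' := abs_le.1 hBR
      rw [sum_biUnion]
      · have hstep : ∀ T ∈ (Icc (L - (P.l : ℤ)) (L + P.l)).filter (fun T => |R - T| ≤ P.l),
            ∑ y ∈ (pots P.l Q (s1 ++ L :: T :: R :: r)).image
              (fun y => ((⟨L, B, R, T⟩ : PV ℤ) :: y.1, y.2)), wt2 P (z :: a) y =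
            tmx P z (stt P.l L T) (stt P.l L B + stt P.l B R - stt P.l L T) (stt P.l L B) *
              RT P (tw Q a) (ket (stw P.l (s1 ++ [L]) ++ stt P.l L T ::
                (stt P.l L B + stt P.l B R - stt P.l L T) :: stw P.l (R :: r))) [0] := by
          intro T hT
          rw [mem_filter, mem_Icc] at hT
          have hLT : |T - L| ≤ P.l := by rw [abs_le]; omega
          have hTR := hT.2
          rw [sum_image]
          · simp only [PSUM_wbox]
            rw [← mul_sum, ← ih hQ.2 (by simpa [labels] using ha) (s := s1 ++ L :: T :: R :: r)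
              (by simp at hs ⊢; omega)
              ((PSUM_InR P.l L _ s1).2 ⟨hr1, hLT, hTR, hr2⟩)]
            have e2 : stt P.l L B + stt P.l B R - stt P.l L T = stt P.l T R := by
              have h4 := PSUM_cast hLT
              have h5 := PSUM_cast hTR
              omega
            rw [PSUM_stw, stw, stw, e2]
            rfl
          · intro y _ y' _ hyy
            simp only [Prod.mk.injEq, List.cons.injEq, true_and] at hyy
            exact Prod.ext hyy.1 hyy.2
        rw [sum_congr rfl hstep]
        rw [← sum_filter_of_ne (s := range (stt P.l L B + stt P.l B R + 1))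
          (p := fun i => i < P.N ∧ stt P.l L B + stt P.l B R - i < P.N)]
        · refine sum_bij' (fun i _ => L + P.l - (i : ℤ)) (fun T _ => stt P.l L T) ?_ ?_ ?_ ?_ ?_
          · intro i hi
            rw [mem_filter, mem_range] at hi
            rw [mem_filter, mem_Icc, abs_le]; omega
          · intro T hT
            rw [mem_filter, mem_Icc, abs_le] at hT
            have h4 := PSUM_cast (l := P.l) (x := L) (y := T) (by rw [abs_le]; omega)
            rw [mem_filter, mem_range]
            omega
          · intro i hi
            rw [mem_filter, mem_range] at hi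
            have h4 := PSUM_cast (l := P.l) (x := L) (y := L + P.l - i) (by rw [abs_le]; omega)
            omega
          · intro T hT
            rw [mem_filter, mem_Icc, abs_le] at hT
            have h4 := PSUM_cast (l := P.l) (x := L) (y := T) (by rw [abs_le]; omega)
            omega
          · intro i hi
            rw [mem_filter, mem_range] at hi
            have h4 := PSUM_cast (l := P.l) (x := L) (y := L + P.l - i) (by rw [abs_le]; omega)
            have h5 : stt P.l L (L + P.l - i) = i := by omega
            rw [h5]
        · intro i hi hne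
          rw [mem_range] at hi
          by_contra hcon
          apply hne
          rw [tmx_zero P z (i := i) (j := stt P.l L B + stt P.l B R - i) (i' := stt P.l L B)
            (by omega) (by omega) (by omega) (by omega), zero_mul]
      · intro T _ T' _ hTT
        rw [Function.onFun, Finset.disjoint_left]
        intro y hy hy'
        rw [mem_image] at hy hy'
        obtain ⟨w, -, rfl⟩ := hy
        obtain ⟨w', -, hw'⟩ := hy'
        simp only [Prod.mk.injEq, List.cons.injEq, PV.mk.injEq, true_and] at hw'
        exact hTT hw'.1.1.symm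

end Pool.Agent.Helper77.UN
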